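import Mathlib

/-!
# Infinite profinite CA groups which are not prosoluble

For a finite field `F` of characteristic `2` with at least four elements, the profinite group
`SL(2, F⟦X⟧)` is an infinite CA group: over a domain the centralizer of a matrix of size `2` which
is not scalar is abelian, and in characteristic `2` the only scalar matrix of determinant `1` is the
identity. Its quotient `SL(2, F)` is a nonabelian simple group, so it is not prosoluble.
-/

set_option autoImplicit false

namespace Pool.Agent.Results.MP_d2e4ca_al.InfiniteCA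

open scoped MatrixGroups PowerSeries PowerSeries.WithPiTopology

/-- The centralizer of every nontrivial element is abelian. -/
def IsCA (G : Type) [Group G] : Prop :=
  ∀ x : G, x ≠ 1 → ∀ a ∈ Subgroup.centralizer {x}, ∀ b ∈ Subgroup.centralizer {x}, a * b = b * a

/-- Every neighbourhood of `1` contains an open normal subgroup whose quotient is soluble. For a
profinite group this says that it is an inverse limit of finite soluble groups. -/
def IsProsoluble (G : Type) [Group G] [TopologicalSpace G] : Prop :=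
  ∀ U ∈ nhds (1 : G), ∃ (N : Subgroup G) (_ : N.Normal),
    IsOpen (N : Set G) ∧ (N : Set G) ⊆ U ∧ Group.IsSolvable (G ⧸ N)

section comm

variable {R : Type} [CommRing R]

theorem comm_iff (a x : Matrix (Fin 2) (Fin 2) R) (h : a * x = x * a) :
    a 0 1 * x 1 0 = x 0 1 * a 1 0 ∧ (a 0 0 - a 1 1) * x 0 1 = (x 0 0 - x 1 1) * a 0 1 ∧
      (a 0 0 - a 1 1) * x 1 0 = (x 0 0 - x 1 1) * a 1 0 := by
  have h00 := congrFun (congrFun h 0) 0
  have h01 := congrFun (congrFun h 0) 1
  have h10 := congrFun (congrFun h 1) 0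
  simp only [Matrix.mul_apply, Fin.sum_univ_two] at h00 h01 h10
  refine ⟨?_, ?_, ?_⟩
  · linear_combination h00
  · linear_combination h01
  · linear_combination -h10

theorem comm_of (a x : Matrix (Fin 2) (Fin 2) R) (h1 : a 0 1 * x 1 0 = x 0 1 * a 1 0)
    (h2 : (a 0 0 - a 1 1) * x 0 1 = (x 0 0 - x 1 1) * a 0 1)
    (h3 : (a 0 0 - a 1 1) * x 1 0 = (x 0 0 - x 1 1) * a 1 0) : a * x = x * a := by
  ext i j
  fin_cases i <;> fin_cases j <;>
    simp only [Matrix.mul_apply, Fin.sum_univ_two, Fin.zero_eta, Fin.mk_one, Fin.isValue]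
  · linear_combination h1
  · linear_combination h2
  · linear_combination -h3
  · linear_combination -h1

variable [IsDomain R]

theorem comm_trans (a b x : Matrix (Fin 2) (Fin 2) R)
    (hx : x 0 1 ≠ 0 ∨ x 1 0 ≠ 0 ∨ x 0 0 - x 1 1 ≠ 0) (ha : a * x = x * a) (hb : b * x = x * b) :
    a * b = b * a := by
  obtain ⟨a1, a2, a3⟩ := comm_iff a x ha
  obtain ⟨b1, b2, b3⟩ := comm_iff b x hb
  rcases hx with h | h | h
  · have g1 : a 0 1 * b 1 0 = b 0 1 * a 1 0 := by
      apply mul_left_cancel₀ h
      linear_combination -a 0 1 * b1 + b 0 1 * a1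
    apply comm_of _ _ g1
    · apply mul_left_cancel₀ h
      linear_combination b 0 1 * a2 - a 0 1 * b2
    · apply mul_left_cancel₀ h
      linear_combination b 1 0 * a2 - a 1 0 * b2 + (x 0 0 - x 1 1) * g1
  · have g1 : a 0 1 * b 1 0 = b 0 1 * a 1 0 := by
      apply mul_left_cancel₀ h
      linear_combination b 1 0 * a1 - a 1 0 * b1
    apply comm_of _ _ g1
    · apply mul_left_cancel₀ h
      linear_combination b 0 1 * a3 - a 0 1 * b3 - (x 0 0 - x 1 1) * g1
    · apply mul_left_cancel₀ h
      linear_combination b 1 0 * a3 - a 1 0 * b3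
  · apply comm_of
    · apply mul_left_cancel₀ h
      linear_combination -b 1 0 * a2 + b 0 1 * a3 - (a 0 0 - a 1 1) * b1
    · apply mul_left_cancel₀ h
      linear_combination (b 0 0 - b 1 1) * a2 - (a 0 0 - a 1 1) * b2
    · apply mul_left_cancel₀ h
      linear_combination (b 0 0 - b 1 1) * a3 - (a 0 0 - a 1 1) * b3

theorem isCA_SL [CharP R 2] : IsCA SL(2, R) := by
  intro x hx a ha b hb
  rw [Subgroup.mem_centralizer_singleton_iff] at ha hb
  have ha' : (a : Matrix (Fin 2) (Fin 2) R) * x = x * a := by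
    have := congrArg (fun y : SL(2, R) => (y : Matrix (Fin 2) (Fin 2) R)) ha
    simpa using this
  have hb' : (b : Matrix (Fin 2) (Fin 2) R) * x = x * b := by
    have := congrArg (fun y : SL(2, R) => (y : Matrix (Fin 2) (Fin 2) R)) hb
    simpa using this
  have key : (a : Matrix (Fin 2) (Fin 2) R) * b = b * a := by
    apply comm_trans _ _ (x : Matrix (Fin 2) (Fin 2) R) _ ha' hb'
    by_contra hcon
    push Not at hcon
    obtain ⟨h1, h2, h3⟩ := hcon
    apply hx
    have hd := x.det_coe
    rw [Matrix.det_fin_two, h1, zero_mul, sub_zero] at hd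
    have h4 : (x : Matrix (Fin 2) (Fin 2) R) 1 1 = x 0 0 := (sub_eq_zero.1 h3).symm
    rw [h4] at hd
    have h5 : ((x : Matrix (Fin 2) (Fin 2) R) 0 0 - 1) ^ 2 = 0 := by
      have h2R : (2 : R) = 0 := by
        have := CharP.cast_eq_zero R 2
        exact_mod_cast this
      linear_combination hd - (x 0 0 - 1) * h2R
    have h6 : (x : Matrix (Fin 2) (Fin 2) R) 0 0 = 1 := sub_eq_zero.1 (pow_eq_zero_iff (two_ne_zero) |>.1 h5)
    ext i j
    fin_cases i <;> fin_cases j
    · simpa using h6
    · simpa using h1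
    · simpa using h2
    · simpa [h4] using h6
  apply Subtype.ext
  simpa using key

end comm

/-- For every finite field `F` of characteristic `2` with at least four elements there is an
infinite profinite CA group which is not prosoluble and which has `PSL(2, F)` as a quotient. -/
theorem result (F : Type) [Field F] [Finite F] [CharP F 2] (hF : 4 ≤ Nat.card F) :
    ∃ G : ProfiniteGrp.{0}, Infinite G ∧ IsCA G ∧ ¬ IsProsoluble G ∧
      ∃ f : G →* PSL(2, F), Function.Surjective f ∧ IsOpen (f.ker : Set G) := by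
  let _ : TopologicalSpace F := ⊥
  have : DiscreteTopology F := ⟨rfl⟩
  have : CompactSpace F⟦X⟧ := inferInstanceAs (CompactSpace ((Unit →₀ ℕ) → F))
  have : TotallyDisconnectedSpace F⟦X⟧ :=
    inferInstanceAs (TotallyDisconnectedSpace ((Unit →₀ ℕ) → F))
  have : CompactSpace (Matrix (Fin 2) (Fin 2) F⟦X⟧) :=
    inferInstanceAs (CompactSpace (Fin 2 → Fin 2 → F⟦X⟧))
  have : TotallyDisconnectedSpace (Matrix (Fin 2) (Fin 2) F⟦X⟧) :=
    inferInstanceAs (TotallyDisconnectedSpace (Fin 2 → Fin 2 → F⟦X⟧))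
  have : CompactSpace SL(2, F⟦X⟧) :=
    (Matrix.SpecialLinearGroup.isClosedEmbedding_val (n := Fin 2) (R := F⟦X⟧)).compactSpace
  have : TotallyDisconnectedSpace SL(2, F⟦X⟧) :=
    inferInstanceAs (TotallyDisconnectedSpace (Subtype _))
  have : CharP F⟦X⟧ 2 := charP_of_injective_ringHom (PowerSeries.C_injective (R := F)) 2
  -- reduction modulo `X`
  let r : SL(2, F⟦X⟧) →* SL(2, F) :=
    Matrix.SpecialLinearGroup.map (PowerSeries.constantCoeff (R := F))
  have hrc : Continuous r :=
    Continuous.specialLinearGroup_map (PowerSeries.WithPiTopology.continuous_constantCoeff F)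
  have hrs : Function.Surjective r := by
    intro g
    refine ⟨Matrix.SpecialLinearGroup.map (PowerSeries.C (R := F)) g, ?_⟩
    ext i j
    simp [r]
  obtain ⟨a, ha, ha2⟩ : ∃ a : F, a ≠ 0 ∧ a ^ 2 ≠ 1 := by
    obtain ⟨x, hx⟩ : IsCyclic Fˣ := by infer_instance
    refine ⟨x, Units.ne_zero x, fun h ↦ ?_⟩
    have h1 := Nat.card_eq_card_units_add_one F
    have h2 := orderOf_eq_card_of_forall_mem_zpowers hx
    have h3 : orderOf x ≤ 2 := orderOf_le_of_pow_eq_one zero_lt_two (Units.ext <| by simpa using h)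
    omega
  have hperf : Group.IsPerfect SL(2, F) := ⟨Matrix.SL2.commutator_eq_top ha ha2⟩
  refine ⟨ProfiniteGrp.of SL(2, F⟦X⟧), ?_, ?_, ?_, ?_⟩
  · change Infinite SL(2, F⟦X⟧)
    refine Infinite.of_injective (fun n : ℕ => Matrix.SpecialLinearGroup.transvection
      (zero_ne_one : (0 : Fin 2) ≠ 1) ((PowerSeries.X : F⟦X⟧) ^ n)) ?_
    intro m n hmn
    have h1 := congrArg (fun y : SL(2, F⟦X⟧) => (y : Matrix (Fin 2) (Fin 2) F⟦X⟧) 0 1) hmn
    simp only [Matrix.SpecialLinearGroup.transvection_coe] at h1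
    have h2 : (PowerSeries.X : F⟦X⟧) ^ m = PowerSeries.X ^ n := by
      simpa using h1
    have h3 := congrArg (PowerSeries.coeff (R := F) m) h2
    rw [PowerSeries.coeff_X_pow, PowerSeries.coeff_X_pow] at h3
    by_contra hne
    simp [hne] at h3
  · exact isCA_SL
  · intro hpro
    change IsProsoluble SL(2, F⟦X⟧) at hpro
    have hU : (r.ker : Set SL(2, F⟦X⟧)) ∈ nhds (1 : SL(2, F⟦X⟧)) := by
      have h1 : IsOpen (r.ker : Set SL(2, F⟦X⟧)) := by
        have : (r.ker : Set SL(2, F⟦X⟧)) = r ⁻¹' {1} := by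
          ext x
          simp [MonoidHom.mem_ker]
        rw [this]
        exact (isOpen_discrete _).preimage hrc
      exact h1.mem_nhds (one_mem r.ker)
    obtain ⟨N, hN, hNo, hNU, hNs⟩ := hpro _ hU
    have h2 : Function.Surjective (QuotientGroup.lift N r (fun x hx => hNU hx)) := by
      intro g
      obtain ⟨x, hx⟩ := hrs g
      exact ⟨(x : SL(2, F⟦X⟧) ⧸ N), by simpa using hx⟩
    have h3 : Group.IsSolvable SL(2, F) := Group.isSolvable_of_surjective h2
    have h4 : Nontrivial PSL(2, F) := inferInstance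
    have h5 : Nontrivial SL(2, F) :=
      (QuotientGroup.mk'_surjective (Subgroup.center SL(2, F))).nontrivial
    exact Group.IsPerfect.not_isSolvable SL(2, F) h3
  · refine ⟨(QuotientGroup.mk' _).comp r, ?_, ?_⟩
    · exact (QuotientGroup.mk'_surjective _).comp hrs
    · change IsOpen (((QuotientGroup.mk' (Subgroup.center SL(2, F))).comp r).ker :
        Set SL(2, F⟦X⟧))
      have : (((QuotientGroup.mk' (Subgroup.center SL(2, F))).comp r).ker : Set SL(2, F⟦X⟧)) =
          r ⁻¹' (Subgroup.center SL(2, F) : Set SL(2, F)) := by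
        ext x
        rw [SetLike.mem_coe, MonoidHom.mem_ker, MonoidHom.comp_apply, QuotientGroup.mk'_apply,
          QuotientGroup.eq_one_iff]
        rfl
      rw [this]
      exact (isOpen_discrete _).preimage hrc

end Pool.Agent.Results.MP_d2e4ca_al.InfiniteCA
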